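import Pool.Agent.N88.WV.Final

/-!
# A primitive ideal of `U(W)` and of `U(Vir)` that is not the kernel of a map to any `Ã_k`

Let `F` be a field of characteristic zero, and let `Ã_k = F[t, t⁻¹, ∂] ⊗ A_{k-1}`.  There is a primitive
ideal `Q` of `U(W)`, and one of `U(Vir)`, which is the kernel of an algebra map to
`F[t_1, t_1⁻¹, ∂_1] ⊗ F[t_2, t_2⁻¹, ∂_2]` and which is not the kernel of any algebra map to any `Ã_k`,
`k ≥ 1`.

Idea.  Let `W` act on `F[t_1^{±1}, t_2^{±1}]` by densities of weight `2` in `t_1` and of weight `0` in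
`t_2`: `e_n = t_1^n (t_1 ∂_1 + 2 n) + t_2^n t_2 ∂_2`.  Let `R` be the image of `U(W)`, `Q` the kernel.
* `Q` is the annihilator of the simple module of the functions `2^b q(a, b)` on `ℤ²`, `q` a polynomial
  (the delta functions at a point off the diagonal).
* Because the two weights are different, `R` contains `E_n = t_1^(2n) (t_1 - t_2)^8 (t_1∂_1 + 8) t_2∂_2`
  for all integers `n` (an alternating sum of products of four `e_i`'s), and it contains
  `T_b = t_1^b t_2^b ((t_1 - t_2)^4 (t_1∂_1 + 2b) + 8 t_1 (t_1 - t_2)^3) t_2∂_2` for all `b`.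
* For `z_n = E_n` or `z_n = T_n` the products `z_n z_{p-n}` span a finite-dimensional space.  In `Ã_k` the
  degrees and the extreme shifts of the symbols of operators are additive, so for nonzero `z_n ∈ Ã_k` with
  this property the degrees are bounded, the shifts in the directions of the variables of `A_{k-1}` are
  bounded, and the shifts in the direction of `t` are at most linear in `n`.  Hence the products
  `T_b E_n`, `|b|, |n| ≤ N`, would span a space of dimension `O(N)`.  But they are linearly independent.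
-/

set_option autoImplicit false

namespace Pool.Agent.Results.MP_4da284_al.OneInvertedVariable

open Pool.Agent.N88.WV

/-- Let `F` be a field of characteristic zero and let `L` be the Witt algebra or the Virasoro algebra over
`F`.  There is a primitive ideal `Q` of `U(L)` that is the kernel of an algebra map from `U(L)` to the
algebra `F[t_1, t_1⁻¹, ∂_1] ⊗ F[t_2, t_2⁻¹, ∂_2]` of differential operators on the two-dimensional torus,
but that is not the kernel of any algebra map from `U(L)` to `Ã_{m+1} = F[t, t⁻¹, ∂] ⊗ A_m`, for any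
`m ≥ 0`. -/
theorem result (F : Type) [Field F] [CharZero F] (L : Type) [LieRing L] [LieAlgebra F L]
    (hL : IsWitt F L ∨ IsVirasoro F L) :
    ∃ Q : TwoSidedIdeal (UniversalEnvelopingAlgebra F L), IsPrimitive Q ∧
      (∃ χ : UniversalEnvelopingAlgebra F L →ₐ[F] DTorus F, ∀ a, a ∈ Q ↔ χ a = 0) ∧
      ∀ (m : ℕ) (φ : UniversalEnvelopingAlgebra F L →ₐ[F] Atilde F m),
        ¬ ∀ a, a ∈ Q ↔ φ a = 0 := by
  obtain ⟨ψ, χ, h1, h2, h3⟩ := exists_reps hL
  have hQ : ∀ a, a ∈ TwoSidedIdeal.ker ψ ↔ ψ a = 0 := fun a => TwoSidedIdeal.mem_ker ψ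
  refine ⟨TwoSidedIdeal.ker ψ, ?_, ⟨χ, fun a => (hQ a).trans (h3 a)⟩, ?_⟩
  · obtain ⟨M, i1, i2, hM, hann⟩ := primitive ψ h1 h2
    exact ⟨M, i1, i2, hM, fun a => (hQ a).trans (hann a)⟩
  · intro m φ hφ
    exact no_map ψ h1 m φ (fun a => (hQ a).symm.trans (hφ a))

end Pool.Agent.Results.MP_4da284_al.OneInvertedVariable
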